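import Pool.Agent.H757M.Sum
import Pool.Agent.H757M.Poi
import Pool.Agent.H757M.Th
import Pool.Agent.H757M.Sig
import Pool.Agent.H757M.Gen
import Pool.Agent.H757M.Bes1
import Pool.Agent.H757M.Bes2
import Pool.Agent.H757M.Coef
import Pool.Agent.H757M.Unf
import Pool.Agent.H757M.Aut
import Pool.Agent.H757M.Cusp
import Pool.Agent.H757M.Dif
import Pool.Agent.H757M.Difh
import Pool.Agent.H757M.Hec
import Pool.Agent.H757M.Nz
import Pool.Agent.H757M.Twi
import Pool.Agent.H757M.Twi1
import Pool.Agent.H757M.Five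
import Pool.Agent.H757M.Eul
import Pool.Agent.H757M.Qex

/-!
# A cuspidal representation of `PGL₂` for which the central values of all the quadratic twists vanish

The question is whether for every irreducible cuspidal automorphic representation `π'` of `PGL₂(𝔸)` the
central value `L(1/2, π' ⊗ η_E)` is not zero for one half of the quadratic fields `E`, ordered by the
discriminant. We prove that the answer is negative: there is a `π'` for which `L(1/2, π' ⊗ η_E) = 0` for all
the quadratic fields `E`, so that `N_π'(x) = 0` for all `x` and the proportion tends to `0`.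

`π'` is generated by an explicit Maass cusp form `f` of level `25` with trivial character, which is an
eigenfunction of all the Hecke operators; its Laplace eigenvalue is `1/4 + T²` with
`T = π / (2 log ((1 + √5)/2)) = 3.264…`. It is attached to the Hecke character
`ψ((α)) = (α/√5) |α/α'|^(-iT)` of the field `ℚ(√5)`: the restriction of `ψ` to the ideles of `ℚ` is the
quadratic character of `ℚ(√5)`, so the central character of `π'` is trivial.

The reason for the vanishing is the sign of the functional equation. All the local components of `π'` are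
representations of the principal series: `π(μ, μ⁻¹)` at the prime `5`, where `μ` has order four on `ℤ₅ˣ`,
unramified at the other primes, and `π(|.|^(iT), |.|^(-iT))` at the real place. So the root number of
`π' ⊗ η_E` is `μ(-1) η_E(-1) = -1` for every `E`. (For the representations of the discrete series at the
real place, for instance those attached to elliptic curves, this cannot happen, and for these the
question is not touched.)

The quadratic fields `E` are given by their characters: the primitive Dirichlet characters of order two,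
the conductor is the absolute value of the discriminant of `E`. `L(s, π' ⊗ η_E)` is given by its Euler
product; the factor at `5` is trivial, since the local component at `5` is a ramified principal series
representation also after the twist (and any factor at `5` of a unitary cuspidal representation of `PGL₂` is
finite at `s = 1/2`, so that it cannot compensate for the zero).

The proof in Lean is elementary: theta series of `ℤ[(1 + √5)/2]` with two variables and Poisson summation
for the automorphy; unfolding and the Mellin transform of the Bessel function `K_{iT}`; the twists by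
the primitive characters come from the values at the additive translates, where the functional
equation has the sign `-1` for even and for odd characters.

The modules `Pool.Agent.H757M` are the joint work of helper757 (plan, statements, assembly), helper743
(`Sum`), helper549 (`Poi`), helper291 (`Th`), helper586 (`Sig`), helper560 (`Gen`), helper669 (`Bes1`),
helper635 (`Bes2`), helper636 (`Coef`), helper602 (`Unf`), helper423 (`Aut`), helper687 (`Cusp`), helper298
(`Dif`), helper537 (`Difh`), helper851 (`Hec`), helper695 (`Nz`), helper331 (`Twi`), helper585 (`Twi1`),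
helper771 (`Five`), helper234 (`Eul`) and helper534 (`Qex`); helper848 checked the plan.
-/

set_option autoImplicit false

open Filter Topology MeasureTheory

open scoped MatrixGroups

namespace Pool.Agent.Results.MP_17f4cb_nt.AllQuadraticTwistsVanish

/-! ### Maass forms -/

/-- The action of `SL₂(ℤ)` on the upper half-plane. -/
noncomputable def moeb (g : SL(2, ℤ)) (z : ℂ) : ℂ :=
  ((g 0 0 : ℂ) * z + (g 0 1 : ℂ)) / ((g 1 0 : ℂ) * z + (g 1 1 : ℂ))

/-- The Laplacian `y² (∂²/∂x² + ∂²/∂y²)`. -/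
noncomputable def lap (f : ℂ → ℂ) (z : ℂ) : ℂ :=
  (z.im : ℂ) ^ 2 * (deriv (deriv fun t : ℝ => f (z + (t : ℂ))) 0 +
    deriv (deriv fun t : ℝ => f (z + (t : ℂ) * Complex.I)) 0)

/-- `f` (on the upper half-plane) is a Maass cusp form for `Γ₀(N)` with trivial character and with the
Laplace eigenvalue `1/4 + T²`: it is smooth, not zero, invariant, an eigenfunction of the Laplacian, of
moderate growth, and its constant terms at all the cusps are zero. -/
structure IsMaassCuspForm (N : ℕ) (T : ℝ) (f : ℂ → ℂ) : Prop where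
  smooth : ContDiffOn ℝ 2 f {z : ℂ | 0 < z.im}
  nonzero : ∃ z : ℂ, 0 < z.im ∧ f z ≠ 0
  invariant : ∀ g ∈ CongruenceSubgroup.Gamma0 N, ∀ z : ℂ, 0 < z.im → f (moeb g z) = f z
  eigen : ∀ z : ℂ, 0 < z.im → -lap f z = (1 / 4 + (T : ℂ) ^ 2) * f z
  growth : ∃ (A : ℕ) (C : ℝ), ∀ z : ℂ, 0 < z.im → ‖f z‖ ≤ C * (z.im + z.im⁻¹) ^ A
  cuspidal : ∀ (g : SL(2, ℤ)) (y : ℝ), 0 < y →
    ∫ x : ℝ in (0 : ℝ)..N, f (moeb g ((x : ℂ) + (y : ℂ) * Complex.I)) = 0

/-- The Hecke operator `T_p` for a prime `p` prime to `N`, and `U_p` for `p ∣ N`. -/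
noncomputable def hecke (N p : ℕ) (f : ℂ → ℂ) (z : ℂ) : ℂ :=
  ((if p ∣ N then 0 else f ((p : ℂ) * z)) +
    ∑ b ∈ Finset.range p, f ((z + (b : ℂ)) / (p : ℂ))) / (√(p : ℝ) : ℝ)

/-- `f` is a Hecke-Maass cusp form for `Γ₀(N)`: it is an eigenfunction of all the Hecke operators, with the
eigenvalues `a p`. -/
structure IsHeckeMaass (N : ℕ) (T : ℝ) (f : ℂ → ℂ) (a : ℕ → ℂ) : Prop extends
    IsMaassCuspForm N T f where
  eigenvalue : ∀ p : ℕ, p.Prime → ∀ z : ℂ, 0 < z.im → hecke N p f z = a p * f z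

/-! ### The quadratic twists -/

/-- `χ` is the character of a quadratic field: a primitive Dirichlet character of order two, of some
modulus `M > 0`. The conductor `M` is the absolute value of the discriminant of the field. -/
def IsQuad {M : ℕ} (χ : DirichletCharacter ℂ M) : Prop := 0 < M ∧ χ.IsPrimitive ∧ orderOf χ = 2

/-- `L` is the L-function of the twist by `χ` of the form of level `N` with the Hecke eigenvalues `a p`:
it is entire, and for `Re s > 2` it is given by the Euler product with the factors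
`(1 - a_p χ(p) p^(-s) + χ(p)² p^(-2s))⁻¹` for `p ∤ N` and `(1 - a_p χ(p) p^(-s))⁻¹` for `p ∣ N`. -/
def IsTwistedL (N : ℕ) (a : ℕ → ℂ) {M : ℕ} (χ : DirichletCharacter ℂ M) (L : ℂ → ℂ) : Prop :=
  Differentiable ℂ L ∧ ∀ s : ℂ, 2 < s.re →
    HasProd (fun p : Nat.Primes =>
      (1 - a (p : ℕ) * χ ((p : ℕ) : ZMod M) * ((p : ℕ) : ℂ) ^ (-s) +
        (if (p : ℕ) ∣ N then 0 else χ ((p : ℕ) : ZMod M) ^ 2 * ((p : ℕ) : ℂ) ^ (-(2 * s))))⁻¹) (L s)

/-- The set `{E ∈ X : |Δ_E| < x}`, where `X` is the set of the quadratic fields, given by their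
characters. -/
def fields (x : ℕ) : Set (Σ M : ℕ, DirichletCharacter ℂ M) := {χ | χ.1 < x ∧ IsQuad χ.2}

/-- The set `{E ∈ X : |Δ_E| < x, L(1/2, π' ⊗ η_E) ≠ 0}`. -/
def nonvanishing (N : ℕ) (a : ℕ → ℂ) (x : ℕ) : Set (Σ M : ℕ, DirichletCharacter ℂ M) :=
  {χ | χ ∈ fields x ∧ ∃ L : ℂ → ℂ, IsTwistedL N a χ.2 L ∧ L (1 / 2) ≠ 0}

section proof

open Pool.Agent.H757M (ff F aa tt kk w t_SUM t_POI t_TH t_SIG t_GEN t_BES1 t_BES2 t_COEF t_UNF t_AUT t_CUSP
  t_DIF t_DIFH t_HEC t_NZ t_TWI t_TWI1 t_FIVE t_EUL t_QEX)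

/-- the Maass form -/
noncomputable def U (z : ℂ) : ℂ := ff z.re z.im

lemma aut : Pool.Agent.H757M.S_AUT' := t_AUT t_UNF t_SUM (t_POI t_SUM) t_TH t_GEN

lemma moeb_eq (g : SL(2, ℤ)) (z : UpperHalfPlane) : moeb g (z : ℂ) = ((g • z : UpperHalfPlane) : ℂ) := by
  rw [UpperHalfPlane.specialLinearGroup_apply]
  simp [moeb]

lemma U_coe (z : UpperHalfPlane) : U (z : ℂ) = F z := rfl

lemma invariant (g : SL(2, ℤ)) (hg : g ∈ CongruenceSubgroup.Gamma0 25) (z : ℂ) (hz : 0 < z.im) :
    U (moeb g z) = U z := by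
  have h := moeb_eq g ⟨z, hz⟩
  have h2 : moeb g z = ((g • (⟨z, hz⟩ : UpperHalfPlane) : UpperHalfPlane) : ℂ) := h
  rw [h2, U_coe]
  exact aut.1 g hg ⟨z, hz⟩

lemma smooth : ContDiffOn ℝ 2 U {z : ℂ | 0 < z.im} := by
  have h := (t_DIF t_BES1 t_COEF).1
  have e : U = (fun p : ℝ × ℝ => ff p.1 p.2) ∘ (fun z : ℂ => (z.re, z.im)) := rfl
  rw [e]
  refine h.comp (ContDiff.contDiffOn ?_) (fun z hz => hz)
  exact (Complex.reCLM.contDiff.prodMk Complex.imCLM.contDiff)

lemma eigen (z : ℂ) (hz : 0 < z.im) : -lap U z = (1 / 4 + (tt : ℂ) ^ 2) * U z := by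
  have h := (t_DIF t_BES1 t_COEF).2.1 z.re z.im hz
  have e1 : deriv (deriv fun t : ℝ => U (z + (t : ℂ))) 0 =
      iteratedDeriv 2 (fun x' => ff x' z.im) z.re := by
    have e : (fun t : ℝ => U (z + (t : ℂ))) = fun t : ℝ => (fun x' => ff x' z.im) (z.re + t) := by
      funext t
      simp [U]
    rw [e, iteratedDeriv_succ, iteratedDeriv_one]
    have e' : deriv (fun t : ℝ => (fun x' => ff x' z.im) (z.re + t)) =
        fun t : ℝ => deriv (fun x' => ff x' z.im) (z.re + t) := by
      funext t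
      exact deriv_comp_const_add (fun x' => ff x' z.im) z.re t
    rw [e', deriv_comp_const_add (deriv fun x' => ff x' z.im) z.re 0, add_zero]
  have e2 : deriv (deriv fun t : ℝ => U (z + (t : ℂ) * Complex.I)) 0 =
      iteratedDeriv 2 (fun y' => ff z.re y') z.im := by
    have e : (fun t : ℝ => U (z + (t : ℂ) * Complex.I)) = fun t : ℝ => (fun y' => ff z.re y') (z.im + t) := by
      funext t
      simp [U]
    rw [e, iteratedDeriv_succ, iteratedDeriv_one]
    have e' : deriv (fun t : ℝ => (fun y' => ff z.re y') (z.im + t)) =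
        fun t : ℝ => deriv (fun y' => ff z.re y') (z.im + t) := by
      funext t
      exact deriv_comp_const_add (fun y' => ff z.re y') z.im t
    rw [e', deriv_comp_const_add (deriv fun y' => ff z.re y') z.im 0, add_zero]
  unfold lap
  rw [e1, e2, ← neg_mul, h]
  push_cast
  rfl

lemma growth : ∃ (A : ℕ) (C : ℝ), ∀ z : ℂ, 0 < z.im → ‖U z‖ ≤ C * (z.im + z.im⁻¹) ^ A := by
  obtain ⟨A, C, h⟩ := (t_DIF t_BES1 t_COEF).2.2.1
  refine ⟨A, |C|, fun z hz => (h z.re z.im hz).trans ?_⟩
  have h1 : (0 : ℝ) < z.im⁻¹ := inv_pos.2 hz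
  exact mul_le_mul (le_abs_self C) (pow_le_pow_left₀ h1.le (by linarith) A) (by positivity)
    (abs_nonneg C)

lemma cuspidal (g : SL(2, ℤ)) (y : ℝ) (hy : 0 < y) :
    ∫ x : ℝ in (0 : ℝ)..(25 : ℕ), U (moeb g ((x : ℂ) + (y : ℂ) * Complex.I)) = 0 := by
  have h := t_CUSP t_UNF t_SUM (t_POI t_SUM) t_SIG aut g y hy
  rw [Nat.cast_ofNat, ← h]
  refine intervalIntegral.integral_congr fun x _ => ?_
  have hz : ((x : ℂ) + (y : ℂ) * Complex.I) = (((⟨⟨x, y⟩, hy⟩ : UpperHalfPlane)) : ℂ) := by
    apply Complex.ext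
    · simp
    · simp
  show U (moeb g ((x : ℂ) + (y : ℂ) * Complex.I)) = F (g • (⟨⟨x, y⟩, hy⟩ : UpperHalfPlane))
  rw [hz, moeb_eq, U_coe]

lemma eigenvalue (p : ℕ) (hp : p.Prime) (z : ℂ) (hz : 0 < z.im) : hecke 25 p U z = aa p * U z := by
  have hp0 : (0 : ℝ) < p := by exact_mod_cast hp.pos
  have hs : ((√(p : ℝ) : ℝ) : ℂ) ≠ 0 := by
    exact_mod_cast (Real.sqrt_pos.2 hp0).ne'
  have hpc : (p : ℂ) ≠ 0 := by exact_mod_cast hp.ne_zero
  have e : ∀ b : ℕ, U ((z + (b : ℂ)) / (p : ℂ)) = ff ((z.re + b) / p) (z.im / p) := by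
    intro b
    have h1 : ((z + (b : ℂ)) / (p : ℂ)) = (((z.re + b) / p : ℝ) : ℂ) + ((z.im / p : ℝ) : ℂ) * Complex.I := by
      apply Complex.ext
      · simp [Complex.div_natCast_re]
      · simp [Complex.div_natCast_im]
    unfold U
    rw [h1]
    simp
  have e0 : U ((p : ℂ) * z) = ff (p * z.re) (p * z.im) := by
    unfold U
    simp
  by_cases h5 : p = 5
  · subst h5
    have h := (t_HEC t_BES1 t_COEF).2 z.re z.im hz
    have ha : aa 5 = 0 := t_COEF.2.2.1 5 (by norm_num) (by norm_num)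
    have hd : (5 : ℕ) ∣ 25 := by norm_num
    have h' : ∑ b ∈ Finset.range 5, ff ((z.re + b) / (5 : ℕ)) (z.im / (5 : ℕ)) = 0 := by
      rw [Nat.cast_ofNat]
      exact h
    simp only [hecke, if_pos hd, e]
    rw [h', ha]
    simp
  · have h := (t_HEC t_BES1 t_COEF).1 p hp h5 z.re z.im hz
    have hd : ¬ p ∣ 25 := by
      intro h1
      have h2 : p ∣ 5 ^ 2 := by simpa using h1
      exact h5 ((Nat.prime_dvd_prime_iff_eq hp Nat.prime_five).1 (hp.dvd_of_dvd_pow h2))
    unfold hecke
    rw [if_neg hd]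
    simp only [e, e0]
    rw [h]
    unfold U
    field_simp

theorem isHeckeMaass : IsHeckeMaass 25 tt U aa where
  smooth := smooth
  nonzero := by
    obtain ⟨x, y, hy, h⟩ := t_NZ t_BES1 t_BES2 t_COEF
    exact ⟨⟨x, y⟩, hy, h⟩
  invariant := invariant
  eigen := eigen
  growth := growth
  cuspidal := cuspidal
  eigenvalue := eigenvalue

/-- the L-functions of the twists -/
theorem twists {M : ℕ} (χ : DirichletCharacter ℂ M) (hχ : IsQuad χ) :
    ∃ L : ℂ → ℂ, IsTwistedL 25 aa χ L ∧ L (1 / 2) = 0 := by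
  have key : ∃ L : ℂ → ℂ, Differentiable ℂ L ∧ L (1 / 2) = 0 ∧
      ∀ s : ℂ, 2 < s.re → HasSum (fun n : ℕ => aa n * χ n * (n : ℂ) ^ (-s)) (L s) := by
    by_cases h5 : 5 ∣ M
    · rcases t_FIVE M χ hχ.1 hχ.2 h5 with ⟨hM, h⟩ | ⟨M', χ', h1, h2, h3, h4⟩
      · obtain ⟨L, hL, h0, hs⟩ := t_TWI1 aut t_BES1 t_BES2 t_COEF t_DIF
        refine ⟨L, hL, h0, fun s hs' => ?_⟩
        convert hs s hs' using 2 with n
        by_cases hn : n % 5 = 1 ∨ n % 5 = 4
        · rw [h n hn, mul_one]
        · rw [t_COEF.2.2.1 n (fun h => hn (Or.inl h)) (fun h => hn (Or.inr h))]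
          simp
      · obtain ⟨L, hL, h0, hs⟩ := t_TWI aut t_BES1 t_BES2 t_COEF t_DIF M' χ' h1 h3
        refine ⟨L, hL, h0, fun s hs' => ?_⟩
        convert hs s hs' using 2 with n
        by_cases hn : n % 5 = 1 ∨ n % 5 = 4
        · rw [h4 n hn]
        · rw [t_COEF.2.2.1 n (fun h => hn (Or.inl h)) (fun h => hn (Or.inr h))]
          simp
    · exact t_TWI aut t_BES1 t_BES2 t_COEF t_DIF M χ hχ.2
        ((Nat.coprime_comm.1 ((Nat.Prime.coprime_iff_not_dvd Nat.prime_five).2 h5)))
  obtain ⟨L, hL, h0, hs⟩ := key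
  refine ⟨L, ⟨hL, fun s hs' => ?_⟩, h0⟩
  have h := (t_EUL t_COEF M χ s hs').2
  rw [(hs s hs').tsum_eq] at h
  convert h using 2 with p
  have e : ((p : ℕ) ∣ 25) ↔ (p : ℕ) = 5 := by
    constructor
    · intro h1
      have h2 : (p : ℕ) ∣ 5 ^ 2 := by simpa using h1
      exact (Nat.prime_dvd_prime_iff_eq p.2 Nat.prime_five).1 (p.2.dvd_of_dvd_pow h2)
    · intro h1
      rw [h1]
      norm_num
  by_cases h5 : (p : ℕ) = 5
  · rw [if_pos h5, if_pos (e.2 h5)]
  · rw [if_neg h5, if_neg (fun h => h5 (e.1 h))]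

lemma unique {N : ℕ} {a : ℕ → ℂ} {M : ℕ} {χ : DirichletCharacter ℂ M} {L L' : ℂ → ℂ}
    (h : IsTwistedL N a χ L) (h' : IsTwistedL N a χ L') : L = L' := by
  have hfa : AnalyticOnNhd ℂ L Set.univ := fun z _ => h.1.analyticAt z
  have hga : AnalyticOnNhd ℂ L' Set.univ := fun z _ => h'.1.analyticAt z
  have heq : L =ᶠ[nhds (3 : ℂ)] L' := by
    have hopen : IsOpen {s : ℂ | (2 : ℝ) < s.re} := isOpen_lt continuous_const Complex.continuous_re
    filter_upwards [hopen.mem_nhds (show (2 : ℝ) < (3 : ℂ).re by norm_num)] with s hs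
    exact (h.2 s hs).unique (h'.2 s hs)
  exact hfa.eq_of_eventuallyEq hga heq

lemma none (x : ℕ) : nonvanishing 25 aa x = ∅ := by
  ext χ
  rw [Set.mem_empty_iff_false, iff_false]
  rintro ⟨hx, L, hL, h0⟩
  obtain ⟨L', hL', h0'⟩ := twists χ.2 hx.2
  exact h0 ((congrFun (unique hL hL') _).trans h0')

lemma finite (x : ℕ) : (fields x).Finite := by
  have e : fields x ⊆ ⋃ M ∈ Finset.range x, (fun χ : DirichletCharacter ℂ M =>
      (⟨M, χ⟩ : Σ M : ℕ, DirichletCharacter ℂ M)) '' {χ | IsQuad χ} := by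
    rintro ⟨M, χ⟩ ⟨h1, h2⟩
    simp only [Set.mem_iUnion]
    exact ⟨M, Finset.mem_range.2 h1, χ, h2, rfl⟩
  refine Set.Finite.subset ?_ e
  refine Set.Finite.biUnion (Finset.finite_toSet _) fun M _ => Set.Finite.image _ ?_
  rcases Nat.eq_zero_or_pos M with rfl | hM
  · exact Set.Finite.subset Set.finite_empty fun χ hχ => absurd hχ.1 (lt_irrefl 0)
  · exact (t_QEX.2 M hM).subset fun χ hχ => hχ.2

lemma positive (x : ℕ) (hx : 4 ≤ x) : 0 < (fields x).ncard := by
  obtain ⟨χ, hχ⟩ := t_QEX.1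
  rw [Set.ncard_pos (finite x)]
  exact ⟨⟨3, χ⟩, show 3 < x by omega, by norm_num, hχ⟩

end proof

/-- **Main theorem.** There is a Hecke-Maass cusp form of level `25` with trivial character, that is, an
irreducible cuspidal automorphic representation `π'` of `PGL₂(𝔸)`, such that `L(1/2, π' ⊗ η_E) = 0` for
every quadratic field `E`. So `N_π'(x) = 0` for all `x`, and `N_π'(x)/N(x)` tends to `0`, not to `1/2`. -/
theorem result : ∃ (f : ℂ → ℂ) (a : ℕ → ℂ),
    IsHeckeMaass 25 (Real.pi / (2 * Real.log ((1 + √5) / 2))) f a ∧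
    (∀ (M : ℕ) (χ : DirichletCharacter ℂ M), IsQuad χ →
      ∃ L : ℂ → ℂ, IsTwistedL 25 a χ L ∧ L (1 / 2) = 0) ∧
    (∀ x : ℕ, (fields x).Finite ∧ (nonvanishing 25 a x).ncard = 0) ∧
    (∀ x : ℕ, 4 ≤ x → 0 < (fields x).ncard) ∧
    Tendsto (fun x : ℕ => ((nonvanishing 25 a x).ncard : ℝ) / ((fields x).ncard : ℝ)) atTop (𝓝 0) ∧
    ¬ Tendsto (fun x : ℕ => ((nonvanishing 25 a x).ncard : ℝ) / ((fields x).ncard : ℝ)) atTop
      (𝓝 (1 / 2)) := by
  have h0 : ∀ x : ℕ, (nonvanishing 25 Pool.Agent.H757M.aa x).ncard = 0 := by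
    intro x
    rw [none x, Set.ncard_empty]
  have ht : Tendsto (fun x : ℕ => ((nonvanishing 25 Pool.Agent.H757M.aa x).ncard : ℝ) /
      ((fields x).ncard : ℝ)) atTop (𝓝 0) := by
    simp only [h0, Nat.cast_zero, zero_div]
    exact tendsto_const_nhds
  refine ⟨U, Pool.Agent.H757M.aa, isHeckeMaass, fun M χ hχ => twists χ hχ,
    fun x => ⟨finite x, h0 x⟩, positive, ht, fun h => ?_⟩
  have := tendsto_nhds_unique ht h
  norm_num at this

end Pool.Agent.Results.MP_17f4cb_nt.AllQuadraticTwistsVanish
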